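import Pool.Agent.Run7.h271.ML.Bnd

/-!
# Uniform ideal-adic semicontinuity of minimal log discrepancies computed by monomial divisors in
étale toric coordinates

`G = (X ∋ x, B)` is a pair with a closed point `x`, and `a = ∏ j, (a.I j) ^ (a.c j)` is an `ℝ`-ideal on
`X` with nonzero ideals and with exponents in a set `Γ` (`RIdeal.In`). The class `InClass n Γ a m`: the
pair has an étale chart `(Y ∋ P, B')` (a variety `U` with étale morphisms `U → X`, `U → Y` and a closed
point over `x` and `P`, such that the pull-backs of `K_X + B` and `K_Y + B'` agree) where `Y` is a toric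
germ of dimension `n`, given by any strictly convex cone, with the fixed point `P`, and `B'` has
coefficients in `Γ`; and one of the following holds: the number `m` is the log discrepancy of a divisor
over `X ∋ x` which is monomial in the étale toric coordinates (a weighted blow-up in these coordinates);
or `B'` is nondegenerate at `P` in the sense of Khovanskii and Kouchnirenko and the ideals of `a` are
monomial on `U`. In the first case the ideals are arbitrary. For `B = 0` and `B' = 0` this covers all
klt points `x` which are étale locally toric, in particular all smooth points, with any regular system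
of parameters.

Theorem. For every `n` and every DCC set `Γ`, in particular for every finite set `Γ`, there is an `s`,
which depends only on `n` and `Γ` and not on the germ `X ∋ x`, such that for all `ℝ`-ideals `a`, `b` on
`X` with `a.I j + 𝔪 ^ s = b.I j + 𝔪 ^ s` for all `j` (`Cong`) and with `0 ≤ m`, where `m` is the minimal
log discrepancy of `a` and `a` belongs to the class:
(1) some divisor over `X ∋ x` has the log discrepancy `m` both for `a` and for `b`;
(2) the minimal log discrepancy of `b` is at most the one of `a`, for all `b`;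
(3) the two minimal log discrepancies are equal if `b` belongs to the class, too, perhaps with another
chart and with other étale coordinates.
(4) The toric germs themselves, with all ideals whose minimal log discrepancy is computed by a toric
divisor, belong to the class.

The proof shows that the minimal log discrepancy `m` is computed by a monomial divisor of bounded log
discrepancy (the boundedness theorem for monomial pairs of the starting files), and so the orders of
the ideals at this divisor are bounded. The order of an ideal along a monomial divisor is read off from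
the Newton diagrams of its elements in the étale toric coordinates.
-/

set_option autoImplicit false

namespace Pool.Agent.Results.MP_405ba3_ag.EtaleToricCharts

open Pool.Agent.H436R3.Fol Pool.Agent.H436R3.KT Pool.Agent.W497.Mld Pool.Agent.TH165.ACC
  Pool.Agent.Run7.h271.ML

/-- The statements (1), (2), (3) for the number `s`. -/
def Semicontinuity (n : ℕ) (Γ : Set ℝ) (s : ℕ) : Prop :=
  ∀ (r : ℕ) (G : Germ) (a b : RIdeal G r) (m : ℝ), a.In Γ → Cong s a b → 0 ≤ m → a.IsMld m →
    InClass n Γ a m →
    (∃ v, IsOverGerm G.x v ∧ a.IsLogDisc v m ∧ b.IsLogDisc v m) ∧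
    (∀ m', b.IsMld m' → m' ≤ m) ∧
    ∀ m', 0 ≤ m' → b.In Γ → b.IsMld m' → InClass n Γ b m' → m' = m

theorem isDCC_finite {Γ : Set ℝ} (h : Γ.Finite) : Pool.Agent.TH165.ACC.IsDCC Γ := by
  intro u hu hmem
  have hfin : (Set.range u).Finite := h.subset (by rintro _ ⟨k, rfl⟩; exact hmem k)
  obtain ⟨_, ⟨K, rfl⟩, hK⟩ := Set.exists_min_image (Set.range u) id hfin ⟨u 0, 0, rfl⟩
  exact ⟨K, fun k hk => le_antisymm (hu hk) (hK _ ⟨k, rfl⟩)⟩

theorem result :
    (∀ (n : ℕ) (Γ : Set ℝ), Pool.Agent.TH165.ACC.IsDCC Γ → ∃ s : ℕ, Semicontinuity n Γ s) ∧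
    (∀ Γ : Set ℝ, Γ.Finite → Pool.Agent.TH165.ACC.IsDCC Γ) ∧
    -- (4) the toric germs belong to the class
    (∀ (n r : ℕ) (Γ : Set ℝ) (t : TGerm n) (a : RIdeal t.germ r) (m : ℝ), CoeffIn t.B Γ →
      (∃ v, IsOverGerm t.g.P v ∧ IsMonomial n v ∧ a.IsLogDisc (t.val v) m) → InClass n Γ a m) := by
  refine ⟨fun n Γ hΓ => ?_, fun Γ h => isDCC_finite h, fun n r Γ t a m hB hv => ?_⟩
  · obtain ⟨s, L, h⟩ := bounded_class n hΓ
    refine ⟨s, fun r G a b m ha hab hm0 hm hcl => ?_⟩
    obtain ⟨v, hov, hl, -, hb⟩ := h r G a m ha hm0 hm hcl
    have h1 : ∀ m', b.IsMld m' → m' ≤ m := fun m' hm' => hm'.2 ⟨v, hov, hb b hab⟩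
    refine ⟨⟨v, hov, hl, hb b hab⟩, h1, fun m' hm0' hb' hm' hcl' => ?_⟩
    obtain ⟨v', hov', -, -, ha'⟩ := h r G b m' hb' hm0' hm' hcl'
    have hba : Cong s b a := ⟨hab.1.symm, fun j => (hab.2 j).symm⟩
    exact le_antisymm (h1 m' hm') (hm.2 ⟨v', hov', ha' a hba⟩)
  · exact ⟨t, EtChart.refl t.germ, hB, Or.inr (comp_refl a hv)⟩

end Pool.Agent.Results.MP_405ba3_ag.EtaleToricCharts
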